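import Pool.Agent.Q301.TM.FinM

/-!
# A Baire set of a realcompact space that is not realcompact

If there is a model of ZF, then there is a model of ZF in which CMC fails with a realcompact space
`x` and a Baire set `b` of `x` such that the subspace `b` is not realcompact.
-/

namespace Pool.Agent.Results.MP_f2f7cf_lc.BaireNotRealcompact

open FirstOrder FirstOrder.Language
open Pool.Agent.Helper672.Plain (LSet Mem El)
open Pool.Agent.H635Amen (ZF IsReals)
open Pool.Agent.H310Top (IsTopology)
open Pool.Agent.Q301.TM

universe u

theorem result (h : ∃ (M : Type u) (_ : LSet.Structure M), ZF M) :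
    ∃ (N : Type u) (_ : LSet.Structure N), ZF N ∧ ¬ CMC N ∧
      ∃ (r : N) (_ : Field (El r)) (_ : LinearOrder (El r)) (_ : IsStrictOrderedRing (El r)),
        IsReals r ∧ ∃ t x : N, IsTopology t x ∧ IsRealcompact t x r ∧
          ∃ b s, IsBaire t x r b ∧ IsSubspace s b t ∧ ¬ IsRealcompact s b r := by
  exact Pool.Agent.Q301.TM.pf2f7cf h

end Pool.Agent.Results.MP_f2f7cf_lc.BaireNotRealcompact
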